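import Pool.Agent.P.MP_9699e0_gt.W.Stmt
import Pool.Agent.P.MP_9699e0_gt.W.Act

set_option autoImplicit false

open scoped Manifold ContDiff
open Pool.Agent.P.MP_9699e0_gt

namespace Pool.Agent.Results.MP_9699e0_gt.QuarticAction

/-- For every odd `n` there is a closed simply connected smooth four-manifold, homotopy
equivalent to the Fermat quartic surface, with an effective smooth action of the cyclic group of
order `n` that is trivial on integral homology. -/
theorem result (n : ℕ) (hn : Odd n) :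
    ∃ (X : Type) (_ : TopologicalSpace X) (_ : ChartedSpace R4 X),
      IsManifold 𝓘(ℝ, R4) ∞ X ∧ T2Space X ∧ CompactSpace X ∧ SimplyConnectedSpace X ∧
      Nonempty (ContinuousMap.HomotopyEquiv X Fermat) ∧
      ∃ ρ : ZMod n → X ≃ₘ^∞⟮𝓘(ℝ, R4), 𝓘(ℝ, R4)⟯ X,
        (∀ a b x, ρ (a + b) x = ρ a (ρ b x)) ∧ (∀ a, (∀ x, ρ a x = x) → a = 0) ∧
          ∀ a, HomTrivial ⟨ρ a, (ρ a).continuous⟩ := by
  obtain ⟨F⟩ := HK3.exists_fns hn HK3.exists_psi.choose_spec
  obtain ⟨g, hg⟩ := HK3.exists_g hn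
  obtain ⟨i, h1, h2⟩ := (HK3.md_ok hn).manifold (HK3.md_linj hn)
  obtain ⟨h3, h4, h5, h6, h7⟩ := HW.final' hn F ⟨g, hg.cont⟩ hg
  have hs := h2 g hg.smooth
  have : NeZero n := ⟨hn.pos.ne'⟩
  have hi := HW.iter_val (hg.iter_self hn)
  refine ⟨HK3.XX n, inferInstance, i, h1, h3, h4, h5, h6,
    fun a => ⟨⟨g^[a.val], g^[(-a).val], fun x => ?_, fun x => ?_⟩, hs.iterate _, hs.iterate _⟩,
    hi, fun a ha => ?_, fun a => HW.homTrivial_iter h7 a.val _ rfl⟩
  · rw [← hi, neg_add_cancel, ZMod.val_zero, Function.iterate_zero_apply]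
  · rw [← hi, add_neg_cancel, ZMod.val_zero, Function.iterate_zero_apply]
  · exact (ZMod.val_eq_zero a).1 (Nat.eq_zero_of_dvd_of_lt
      ((hg.iter_iff hn F _).1 (funext ha)) (ZMod.val_lt a))

end Pool.Agent.Results.MP_9699e0_gt.QuarticAction
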